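import Pool.Agent.helper64.OT.SpecG

set_option autoImplicit false

/-!
# OG (MP_f6e9a2_nt): PCB (adapted from helper88's PC2)
-/

namespace Pool.Agent.OG

open Finset Pool.Agent.OT Pool.Agent.SPI Pool.Agent.helper85.PG
open scoped Pointwise

theorem PCB_mm {p : ℕ} (H B : Finset (ZMod p)) (c c' : ZMod p) :
    mmS H B c c' = ∑ y ∈ H, (if c + y ∈ B then 1 else 0) * (if c' + y ∈ B then 1 else 0) := by
  unfold mmS
  rw [Finset.card_filter]
  refine Finset.sum_congr rfl fun y _ => ?_
  by_cases h1 : c + y ∈ B <;> by_cases h2 : c' + y ∈ B <;> simp [h1, h2]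

theorem PCB_shift {p : ℕ} [Fact p.Prime] (B : Finset (ZMod p)) (y : ZMod p) :
    ∑ c : ZMod p, (if c + y ∈ B then 1 else 0) = B.card := by
  rw [← Finset.card_filter]
  refine Finset.card_bij (fun c _ => c + y) (fun c hc => (Finset.mem_filter.mp hc).2)
    (fun a _ b _ h => add_right_cancel h) (fun b hb => ⟨b - y, ?_, ?_⟩)
  · rw [Finset.mem_filter]
    exact ⟨Finset.mem_univ _, by rwa [sub_add_cancel]⟩
  · rw [sub_add_cancel]

theorem PCB_one {p : ℕ} [Fact p.Prime] (H B : Finset (ZMod p)) :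
    ∑ c : ZMod p, ∑ c' : ZMod p, mmS H B c c' = H.card * B.card ^ 2 := by
  have h1 : ∀ c c' : ZMod p, mmS H B c c' =
      ∑ y ∈ H, (if c + y ∈ B then 1 else 0) * (if c' + y ∈ B then 1 else 0) := PCB_mm H B
  have h2 : ∑ c : ZMod p, ∑ c' : ZMod p, mmS H B c c' =
      ∑ y ∈ H, (∑ c : ZMod p, (if c + y ∈ B then 1 else 0)) *
        (∑ c' : ZMod p, (if c' + y ∈ B then 1 else 0)) := by
    simp only [h1]
    have e1 : ∀ c : ZMod p, ∑ c' : ZMod p, ∑ y ∈ H, (if c + y ∈ B then 1 else 0) *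
        (if c' + y ∈ B then 1 else 0) = ∑ y ∈ H, (if c + y ∈ B then 1 else 0) *
        ∑ c' : ZMod p, (if c' + y ∈ B then 1 else 0) := by
      intro c
      rw [Finset.sum_comm]
      exact Finset.sum_congr rfl fun y _ => (Finset.mul_sum _ _ _).symm
    rw [Finset.sum_congr rfl fun c _ => e1 c, Finset.sum_comm]
    exact Finset.sum_congr rfl fun y _ => (Finset.sum_mul _ _ _).symm
  rw [h2, Finset.sum_congr rfl fun y _ => by rw [PCB_shift]]
  rw [Finset.sum_const, smul_eq_mul]
  ring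

theorem PCB : PCB_stmt := by
  classical
  intro p _ H B
  have h0 : ∑ c : ZMod p, ∑ c' : ZMod p, (mmS H B c c' : ℝ) = H.card * (B.card : ℝ) ^ 2 := by
    exact_mod_cast PCB_one H B
  refine ⟨h0.le, ?_⟩
  -- the quadruples
  have h1 : ∑ c : ZMod p, ∑ c' : ZMod p, mmS H B c c' ^ 2 ≤ H.card * ES H B := by
    set S : Finset ((ZMod p × ZMod p) × (ZMod p × ZMod p)) := ((univ ×ˢ univ) ×ˢ (H ×ˢ H)).filter fun z =>
      (z.1.1 + z.2.1 ∈ B ∧ z.1.2 + z.2.1 ∈ B) ∧
      (z.1.1 + z.2.2 ∈ B ∧ z.1.2 + z.2.2 ∈ B) with hS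
    have e1 : ∑ c : ZMod p, ∑ c' : ZMod p, mmS H B c c' ^ 2 = S.card := by
      rw [hS, Finset.card_filter, Finset.sum_product, Finset.sum_product]
      refine Finset.sum_congr rfl fun c _ => Finset.sum_congr rfl fun c' _ => ?_
      rw [sq, mmS, Finset.card_filter, Finset.sum_mul_sum, Finset.sum_product]
      refine Finset.sum_congr rfl fun y _ => Finset.sum_congr rfl fun y' _ => ?_
      by_cases a1 : c + y ∈ B ∧ c' + y ∈ B <;>
        by_cases a2 : c + y' ∈ B ∧ c' + y' ∈ B <;> simp [a1, a2]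
    rw [e1]
    unfold ES
    refine Finset.card_le_mul_card_image_of_maps_to (s := S)
      (f := fun z => ((z.1.1 + z.2.1, z.1.2 + z.2.1), (z.1.1 + z.2.2, z.1.2 + z.2.2)))
      (fun z hz => ?_) H.card (fun w _ => ?_)
    · rw [hS, Finset.mem_filter, Finset.mem_product, Finset.mem_product, Finset.mem_product] at hz
      rw [Finset.mem_filter, Finset.mem_product, Finset.mem_product, Finset.mem_product]
      refine ⟨⟨⟨hz.2.1.1, hz.2.1.2⟩, hz.2.2.1, hz.2.2.2⟩, by ring, ?_⟩
      have e2 : z.1.1 + z.2.1 - (z.1.1 + z.2.2) = z.2.1 - z.2.2 := by ring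
      rw [e2]
      exact Finset.sub_mem_sub hz.1.2.1 hz.1.2.2
    · -- the fibre injects into `H` by `y`
      refine Finset.card_le_card_of_injOn (fun z => z.2.1) (fun z hz => ?_) (fun z hz z' hz' h => ?_)
      · have hz := Finset.mem_coe.mp hz
        rw [Finset.mem_filter, hS, Finset.mem_filter, Finset.mem_product] at hz
        exact Finset.mem_coe.mpr (Finset.mem_product.mp hz.1.1.2).1
      · have hz := Finset.mem_coe.mp hz
        have hz' := Finset.mem_coe.mp hz'
        rw [Finset.mem_filter] at hz hz'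
        obtain ⟨_, hw⟩ := hz
        obtain ⟨_, hw'⟩ := hz'
        have h : z.2.1 = z'.2.1 := h
        have hww := hw.trans hw'.symm
        simp only [Prod.mk.injEq] at hww
        obtain ⟨⟨f1, f2⟩, f3, f4⟩ := hww
        rw [h] at f1 f2
        have g1 := add_right_cancel f1
        have g2 := add_right_cancel f2
        rw [g1] at f3
        have g3 : z.2.2 = z'.2.2 := add_left_cancel f3
        exact Prod.ext (Prod.ext g1 g2) (Prod.ext h g3)
  exact_mod_cast h1

end Pool.Agent.OG
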