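import Pool.Agent.helper64.OT.SpecM

set_option autoImplicit false

namespace Pool.Agent.OT

open Finset

theorem WTF_cast {p : ℕ} {a b : ℕ} (ha : a < p) (hb : b < p) (h : (a : ZMod p) = (b : ZMod p)) : a = b := by
  have h1 := (ZMod.natCast_eq_natCast_iff' a b p).1 h
  rwa [Nat.mod_eq_of_lt ha, Nat.mod_eq_of_lt hb] at h1

theorem WTF_conj {p : ℕ} [NeZero p] (t : ZMod p) : (starRingEnd ℂ) (ps t) = ps (-t) := by
  unfold ps
  rw [AddChar.map_neg_eq_inv, AddChar.inv_apply_eq_conj]

theorem WTF_fib {p : ℕ} [NeZero p] (T : ℕ) (g : ZMod p → ℂ) :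
    ∑ r : ZMod p, ((wt T r : ℝ) : ℂ) * g r =
      (∑ z ∈ range T ×ˢ range T, g ((z.1 : ZMod p) - (z.2 : ZMod p))) / ((T : ℂ) ^ 2) := by
  classical
  rw [← Finset.sum_fiberwise (range T ×ˢ range T) (fun z => (z.1 : ZMod p) - (z.2 : ZMod p)), Finset.sum_div]
  refine Finset.sum_congr rfl (fun r _ => ?_)
  have h1 : ∑ z ∈ (range T ×ˢ range T) with (z.1 : ZMod p) - (z.2 : ZMod p) = r, g ((z.1 : ZMod p) - (z.2 : ZMod p)) =
      ∑ z ∈ (range T ×ˢ range T) with (z.1 : ZMod p) - (z.2 : ZMod p) = r, g r := by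
    refine Finset.sum_congr rfl (fun z hz => ?_)
    rw [(Finset.mem_filter.1 hz).2]
  rw [h1, Finset.sum_const, nsmul_eq_mul]
  unfold wt
  push_cast
  ring

theorem WTF : WTF_stmt := by
  classical
  intro p _ T hT hTp
  have hT0 : (0 : ℝ) < T := by exact_mod_cast hT
  have hTC : (T : ℂ) ≠ 0 := by exact_mod_cast hT.ne'
  refine ⟨?_, ?_, ?_, ?_⟩
  · intro x
    rw [WTF_fib T (fun r => ps (r * x))]
    unfold psi
    push_cast
    congr 1
    rw [← Complex.mul_conj', map_sum, Finset.sum_mul_sum, Finset.sum_product]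
    refine Finset.sum_congr rfl (fun s _ => Finset.sum_congr rfl (fun s' _ => ?_))
    rw [WTF_conj]
    unfold ps
    rw [← AddChar.map_add_eq_mul]
    congr 1
    ring
  · intro r
    refine ⟨by unfold wt; positivity, ?_⟩
    have h1 : ((range T ×ˢ range T).filter fun z => (z.1 : ZMod p) - (z.2 : ZMod p) = r).card ≤ T := by
      have h2 : ((range T ×ˢ range T).filter fun z => (z.1 : ZMod p) - (z.2 : ZMod p) = r).card ≤ (range T).card := by
        refine Finset.card_le_card_of_injOn (fun z => z.1) ?_ ?_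
        · intro z hz
          have hz' := (Finset.mem_filter.1 hz).1
          exact (Finset.mem_product.1 hz').1
        · intro z hz z' hz' h
          have hz1 := (Finset.mem_filter.1 hz).1
          have hz2 := (Finset.mem_filter.1 hz).2
          have hz1' := (Finset.mem_filter.1 hz').1
          have hz2' := (Finset.mem_filter.1 hz').2
          have h3 : z.1 = z'.1 := h
          have h4 : ((z.2 : ℕ) : ZMod p) = ((z'.2 : ℕ) : ZMod p) := by
            have h5 : ((z.1 : ℕ) : ZMod p) - (z.2 : ZMod p) = ((z.1 : ℕ) : ZMod p) - (z'.2 : ZMod p) := by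
              rw [hz2, h3, hz2']
            exact sub_right_injective h5
          have h6 : z.2 < p := (Finset.mem_range.1 (Finset.mem_product.1 hz1).2).trans_le hTp
          have h7 : z'.2 < p := (Finset.mem_range.1 (Finset.mem_product.1 hz1').2).trans_le hTp
          exact Prod.ext h3 (WTF_cast h6 h7 h4)
      rwa [Finset.card_range] at h2
    unfold wt
    rw [div_le_div_iff₀ (by positivity) hT0]
    have h2 : (((range T ×ˢ range T).filter fun z => (z.1 : ZMod p) - (z.2 : ZMod p) = r).card : ℝ) ≤ T := by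
      exact_mod_cast h1
    nlinarith
  · have h1 := WTF_fib (p := p) T (fun _ => 1)
    have h2 : ((∑ r : ZMod p, wt T r : ℝ) : ℂ) = 1 := by
      push_cast
      have h3 : ∑ r : ZMod p, ((wt T r : ℝ) : ℂ) = ∑ r : ZMod p, ((wt T r : ℝ) : ℂ) * 1 := by
        refine Finset.sum_congr rfl (fun r _ => by ring)
      rw [h3, h1]
      simp only [Finset.sum_const, Finset.card_product, Finset.card_range, nsmul_eq_mul, mul_one]
      push_cast
      field_simp
    exact_mod_cast h2
  · have h1 : (((univ.filter fun r : ZMod p => wt T r ≠ 0) ×ˢ (univ.filter fun r : ZMod p => wt T r ≠ 0)).image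
        fun z => z.1 + z.2) ⊆ (Finset.Ioo (-(2 * T : ℤ)) (2 * T : ℤ)).image (fun k : ℤ => (k : ZMod p)) := by
      have key : ∀ r : ZMod p, wt T r ≠ 0 → ∃ k : ℤ, -(T : ℤ) < k ∧ k < T ∧ (k : ZMod p) = r := by
        intro r hr
        have h2 : ((range T ×ˢ range T).filter fun z => (z.1 : ZMod p) - (z.2 : ZMod p) = r).card ≠ 0 := by
          intro h0
          apply hr
          unfold wt
          rw [h0]
          simp
        obtain ⟨z, hz⟩ := Finset.card_pos.1 (Nat.pos_of_ne_zero h2)
        obtain ⟨hz1, hz2⟩ := Finset.mem_filter.1 hz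
        obtain ⟨hz3, hz4⟩ := Finset.mem_product.1 hz1
        rw [Finset.mem_range] at hz3 hz4
        refine ⟨(z.1 : ℤ) - z.2, by omega, by omega, ?_⟩
        push_cast
        exact hz2
      intro r hr
      obtain ⟨z, hz, rfl⟩ := Finset.mem_image.1 hr
      obtain ⟨hz1, hz2⟩ := Finset.mem_product.1 hz
      obtain ⟨k, hk1, hk2, hk3⟩ := key z.1 (Finset.mem_filter.1 hz1).2
      obtain ⟨l, hl1, hl2, hl3⟩ := key z.2 (Finset.mem_filter.1 hz2).2
      refine Finset.mem_image.2 ⟨k + l, Finset.mem_Ioo.2 ⟨by omega, by omega⟩, ?_⟩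
      push_cast
      rw [hk3, hl3]
    refine (Finset.card_le_card h1).trans (Finset.card_image_le.trans ?_)
    rw [Int.card_Ioo]
    omega

end Pool.Agent.OT
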